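import Pool.Agent.Q137.AZ.Lim

set_option autoImplicit false

open Filter Topology

namespace Pool.Agent.Results.MP_315d97_co.PfaffianGrowth

/-- The skew-symmetric array `(a_{i,j})` of the problem (only indices `i, j ≥ 1` matter). -/
structure IsArray (a : ℕ → ℕ → ℝ) : Prop where
  skew : ∀ i j, a i j = - a j i
  row : ∀ j, 1 < j → a 1 j = 2
  step : ∀ i j, 1 < i → i + 1 < j → a i j = a (i-1) j + a i (j-1) + a (i-1) (j-1)
  diag : ∀ i, 1 < i → a i (i+1) = a (i-1) (i+1) + a (i-1) i + 2 * (-1)^(i-1)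

/-- The sequence `f_1 = 2`, `f_2 = 4`, `f_k = 2 f_{k-1} + f_{k-2}` of the problem. -/
structure IsBorder (f : ℕ → ℝ) : Prop where
  one : f 1 = 2
  two : f 2 = 4
  step : ∀ k, 2 < k → f k = 2 * f (k-1) + f (k-2)

/-- The leading principal submatrix `A_{[2n]}`. -/
def matA (a : ℕ → ℕ → ℝ) (n : ℕ) : Matrix (Fin (2*n)) (Fin (2*n)) ℝ :=
  Matrix.of fun i j => a (i+1) (j+1)

/-- The bordered matrix `B_{2n}`: the block `A_{[2n-1]}`, last column `f`, last row `-f`,
last diagonal entry `0`. -/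
def matB (a : ℕ → ℕ → ℝ) (f : ℕ → ℝ) (n : ℕ) : Matrix (Fin (2*n)) (Fin (2*n)) ℝ :=
  Matrix.of fun i j =>
    if (i:ℕ) + 1 = 2*n then (if (j:ℕ) + 1 = 2*n then 0 else - f (j+1))
    else (if (j:ℕ) + 1 = 2*n then f (i+1) else a (i+1) (j+1))

open Pool.Agent.Q137.AZ in
/-- The array and the border exist; and whenever `P n`, `D n` are nonnegative numbers with
`(P n)^2 = det A_{[2n]}`, `(D n)^2 = det B_{2n}` (that is, the absolute values of the two
Pfaffians), then `2^(n^2-n) ≤ P n ≤ 2^(n^2+n)`, `P n ^ (2/(2n)^2) → √2` and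
`D n ^ (2/(2n-1)^2) → √2`. -/
theorem result :
    (∃ a, IsArray a) ∧ (∃ f, IsBorder f) ∧
    ∀ (a : ℕ → ℕ → ℝ) (f : ℕ → ℝ), IsArray a → IsBorder f →
      (∀ n, 0 < (matA a n).det) ∧ (∀ n, 0 < n → 0 < (matB a f (n+1)).det) ∧
      ∀ P D : ℕ → ℝ, (∀ n, 0 ≤ P n ∧ P n ^ 2 = (matA a n).det) →
        (∀ n, 0 ≤ D n ∧ D n ^ 2 = (matB a f n).det) →
        (∀ n, (2:ℝ)^(n^2) ≤ 2^n * P n ∧ P n ≤ 2^(n^2+n)) ∧
        Tendsto (fun n : ℕ => (P n) ^ ((2:ℝ)/(2*(n:ℝ))^2)) atTop (𝓝 (√2)) ∧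
        Tendsto (fun n : ℕ => (D n) ^ ((2:ℝ)/(2*(n:ℝ)-1)^2)) atTop (𝓝 (√2)) := by
  refine ⟨⟨fun i j => 2 * mm i j, ?_, ?_, ?_, ?_⟩, ?_, ?_⟩
  · intro i j
    rw [mm_skew i j]; ring
  · intro j hj
    obtain ⟨j', rfl⟩ : ∃ j', j = j' + 2 := ⟨j - 2, by omega⟩
    rw [mm_one]; norm_num
  · intro i j hi hj
    exact mm_step i j hi hj
  · intro i hi
    exact mm_diag i hi
  · refine ⟨fun k => 2 * (ell k).eval 1, ?_, ?_, ?_⟩
    · simp [ell]
    · show 2 * (ell 2).eval 1 = 4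
      rw [ell_rec]; simp [ell]; norm_num
    · intro k hk
      obtain ⟨k', rfl⟩ : ∃ k', k = k' + 1 + 2 := ⟨k - 3, by omega⟩
      show 2 * (ell (k' + 1 + 2)).eval 1 = _
      rw [ell_rec]
      simp only [show k'+1+2-1 = k'+1+1 by omega, show k'+1+2-2 = k'+1 by omega,
        Polynomial.eval_add, Polynomial.eval_mul, Polynomial.eval_one, Polynomial.eval_X]
      ring
  · intro a f ha hf
    have hA : ∀ n, (matA a n).det = (2^n * HL n)^2 :=
      fun n => det_A a ha.skew ha.row ha.step ha.diag n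
    have hB : ∀ n, (matB a f (n+1)).det = (2^(n+1) * HT n)^2 :=
      fun n => det_B a ha.skew ha.row ha.step ha.diag f hf.one hf.two hf.step n
    have pA : ∀ n, 0 < 2^n * HL n := by
      intro n
      have : (0:ℝ) < 2^n * (2^n * HL n) := lt_of_lt_of_le (by positivity) (uA_bounds n).1
      exact pos_of_mul_pos_right this (by positivity)
    have pB : ∀ n, 0 < n → 0 < 2^(n+1) * HT n := by
      intro n hn
      have hn' : (0:ℝ) < n := by exact_mod_cast hn
      exact lt_of_lt_of_le (by positivity) (uD_bounds n hn).1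
    refine ⟨fun n => by rw [hA]; have := pA n; positivity,
      fun n hn => by rw [hB]; have := pB n hn; positivity, ?_⟩
    intro P D hP hD
    have eP : ∀ n, P n = 2^n * HL n := by
      intro n
      have h := (hP n).2
      rw [hA] at h
      exact (sq_eq_sq₀ (hP n).1 (pA n).le).mp h
    have eD : ∀ n, 0 < n → D (n+1) = 2^(n+1) * HT n := by
      intro n hn
      have h := (hD (n+1)).2
      rw [hB] at h
      exact (sq_eq_sq₀ (hD (n+1)).1 (pB n hn).le).mp h
    refine ⟨?_, ?_, ?_⟩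
    · intro n
      rw [eP]; exact uA_bounds n
    · have := log_lim (fun n => 2^n * HL n) uA_lim (Eventually.of_forall pA) _ lim_c1
      refine this.congr ?_
      intro n
      rw [eP]
    · rw [← tendsto_add_atTop_iff_nat 1]
      have := log_lim (fun n => 2^(n+1) * HT n) uD_lim
        ((eventually_gt_atTop 0).mono pB) _ lim_c2
      refine this.congr' ?_
      filter_upwards [eventually_gt_atTop 0] with n hn
      rw [eD n hn]
      push_cast
      rfl

end Pool.Agent.Results.MP_315d97_co.PfaffianGrowth
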